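import Pool.Agent.Q260.DS.Stm

/-! # Project DS (helper260), jobs GR, FW, UP -/

set_option autoImplicit false

namespace Pool.Agent.Q75.DS

open Complex Filter Topology Metric Set
open Pool.Agent.Q260.DS

lemma li_succ {A : ℝ} {k : ℕ} {cs : List ℝ} (h : Li A (k + 1) cs) :
    ∃ (c : ℝ) (ds : List ℝ), cs = c :: ds ∧ |c| ≤ A ∧ Li A k ds := by
  obtain ⟨h1, h2⟩ := h
  cases cs with
  | nil => simp at h1
  | cons c ds =>
    refine ⟨c, ds, rfl, h2 c (by simp), ?_, fun d hd => h2 d (by simp [hd])⟩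
    simpa using h1

lemma li_zero {A : ℝ} {cs : List ℝ} (h : Li A 0 cs) : cs = [] := List.length_eq_zero_iff.1 h.1

theorem t_GR : S_GR := by
  intro K A R k hK hA
  induction k generalizing R with
  | zero =>
    intro hR
    refine ⟨R + 2 + K * (1 + R ^ 2), by nlinarith [sq_nonneg R], ?_⟩
    intro y0 f l g hS cs hcs
    rw [li_zero hcs]
    refine ⟨hS.diff, ?_⟩
    intro y hy u hu
    refine (hS.up y u).trans ?_
    apply mul_le_mul_of_nonneg_left _ (hS.pos y).le
    apply Real.exp_le_exp.2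
    have h1 : max |u.re| (3 / 2) ≤ R + 2 :=
      max_le ((abs_re_le_norm u).trans (by linarith)) (by linarith)
    have h2 : ‖u‖ ^ 2 ≤ R ^ 2 := pow_le_pow_left₀ (norm_nonneg _) hu 2
    have h3 : l y * max |u.re| (3 / 2) ≤ l y * (R + 2) := mul_le_mul_of_nonneg_left h1 (by linarith)
    have h4 : K * (1 + ‖u‖ ^ 2) ≤ K * (1 + R ^ 2) := mul_le_mul_of_nonneg_left (by linarith) (by linarith)
    have h5 : K * (1 + R ^ 2) ≤ K * (1 + R ^ 2) * l y := by
      apply le_mul_of_one_le_right _ hy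
      positivity
    calc l y * max |u.re| (3 / 2) + K * (1 + ‖u‖ ^ 2) ≤ l y * (R + 2) + K * (1 + R ^ 2) * l y := by linarith
      _ = _ := by ring
  | succ k ih =>
    intro hR
    obtain ⟨C, hC, h⟩ := ih (R + 1) (by linarith)
    refine ⟨C + A, by linarith, ?_⟩
    intro y0 f l g hS cs hcs
    obtain ⟨c, ds, rfl, hc, hds⟩ := li_succ hcs
    obtain ⟨hd, hb⟩ := h y0 f l g hS ds hds
    have hdd : Differentiable ℂ (deriv (It f ds)) := fun z => (hd.analyticAt z).deriv.differentiableAt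
    refine ⟨hdd.sub (hd.const_mul _), ?_⟩
    intro y hy u hu
    set M := g y * Real.exp (C * l y) with hM
    have hM0 : 0 ≤ M := mul_nonneg (hS.pos y).le (Real.exp_pos _).le
    have hsph : ∀ w ∈ sphere (u + I * y) 1, ‖It f ds w‖ ≤ M := by
      intro w hw
      have h1 : w = (w - I * y) + I * y := by ring
      rw [h1]
      apply hb y hy
      rw [mem_sphere, dist_eq_norm] at hw
      have h2 : w - I * y = (w - (u + I * y)) + u := by ring
      rw [h2]
      refine (norm_add_le _ _).trans ?_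
      linarith
    have h1 : ‖deriv (It f ds) (u + I * y)‖ ≤ M / 1 :=
      norm_deriv_le_of_forall_mem_sphere_norm_le one_pos hd.diffContOnCl hsph
    have h2 : ‖It f ds (u + I * y)‖ ≤ M := hb y hy u (by linarith)
    have h3 : ‖It f (c :: ds) (u + I * y)‖ ≤ M * (1 + A) := by
      change ‖deriv (It f ds) (u + I * y) - (c : ℂ) * It f ds (u + I * y)‖ ≤ _
      refine (norm_sub_le _ _).trans ?_
      rw [norm_mul, norm_real, Real.norm_eq_abs]
      have := mul_le_mul hc h2 (norm_nonneg _) (by linarith)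
      rw [div_one] at h1
      linarith
    refine h3.trans ?_
    have h4 : 1 + A ≤ Real.exp (A * l y) := by
      have h5 : A ≤ A * l y := le_mul_of_one_le_right (by linarith) hy
      linarith [Real.add_one_le_exp (A * l y)]
    calc M * (1 + A) ≤ M * Real.exp (A * l y) := mul_le_mul_of_nonneg_left h4 hM0
      _ = g y * Real.exp ((C + A) * l y) := by
        rw [hM, mul_assoc, ← Real.exp_add]
        ring_nf

/-- The error term is small against `L`. -/
lemma ee_le {C C1 L δ : ℝ} (hC1 : 1 ≤ C1) (hC : C1 ≤ C) (hL : 1 ≤ L) (h : Ok C L δ) :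
    EE C1 L δ ≤ C1 / C * δ * L := by
  obtain ⟨h1, h2, h3⟩ := h
  have hL0 : 0 < L := by linarith
  have hC0 : 0 < C := by linarith
  have hC10 : 0 < C1 := by linarith
  have e1 : L ^ (1 - δ / C1) ≤ L ^ (1 - δ / C) := by
    apply Real.rpow_le_rpow_of_exponent_le hL
    have : δ / C ≤ δ / C1 := div_le_div_of_nonneg_left h1.le hC10 hC
    linarith
  have e2 : L ^ (1 - δ / C) = L / L ^ (δ / C) := by
    rw [Real.rpow_sub hL0, Real.rpow_one]
  have e3 : L / L ^ (δ / C) ≤ L / (C / δ ^ 3) :=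
    div_le_div_of_nonneg_left hL0.le (by positivity) h3
  have e4 : L / (C / δ ^ 3) = δ ^ 3 / C * L := by
    field_simp
  unfold EE
  calc C1 / δ ^ 2 * L ^ (1 - δ / C1) ≤ C1 / δ ^ 2 * (δ ^ 3 / C * L) := by
        apply mul_le_mul_of_nonneg_left _ (by positivity)
        rw [← e4]
        exact (e1.trans (e2.le)).trans e3
    _ = C1 / C * δ * L := by
        field_simp

/-- `Ok` for comparable values of `L`. -/
lemma ok_near {C C1 L L' δ : ℝ} (hC1 : 1 ≤ C1) (hC : 2 * C1 ≤ C) (hL : 2 ≤ L)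
    (hL' : L / 2 ≤ L') (h : Ok C L δ) : Ok C1 L' δ := by
  obtain ⟨h1, h2, h3⟩ := h
  have hL'1 : 1 ≤ L' := by linarith
  refine ⟨h1, h2, ?_⟩
  have hC0 : 0 < C := by linarith
  have hC10 : 0 < C1 := by linarith
  have e1 : L' ^ (δ / C) ≤ L' ^ (δ / C1) := by
    apply Real.rpow_le_rpow_of_exponent_le hL'1
    exact div_le_div_of_nonneg_left h1.le hC10 (by linarith)
  have e2 : (L / 2) ^ (δ / C) ≤ L' ^ (δ / C) :=
    Real.rpow_le_rpow (by linarith) hL' (by positivity)
  have e3 : (L / 2) ^ (δ / C) = L ^ (δ / C) * (1 / 2 : ℝ) ^ (δ / C) := by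
    rw [← Real.mul_rpow (by linarith) (by norm_num)]
    congr 1
    ring
  have e4 : (1 / 2 : ℝ) ≤ (1 / 2 : ℝ) ^ (δ / C) := by
    have : (1 / 2 : ℝ) ^ (1 : ℝ) ≤ (1 / 2 : ℝ) ^ (δ / C) := by
      apply Real.rpow_le_rpow_of_exponent_ge (by norm_num) (by norm_num)
      rw [div_le_one hC0]
      linarith
    simpa using this
  have e5 : C / δ ^ 3 * (1 / 2) ≤ L ^ (δ / C) * (1 / 2 : ℝ) ^ (δ / C) :=
    mul_le_mul h3 e4 (by norm_num) (by positivity)
  have e6 : C1 / δ ^ 3 ≤ C / δ ^ 3 * (1 / 2) := by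
    rw [div_mul_eq_mul_div]
    apply div_le_div_of_nonneg_right _ (by positivity)
    linarith
  calc C1 / δ ^ 3 ≤ C / δ ^ 3 * (1 / 2) := e6
    _ ≤ _ := e5
    _ = _ := e3.symm
    _ ≤ _ := e2
    _ ≤ _ := e1

lemma nz_mono {G : ℂ → ℂ} {θ θ' a a' b b' : ℝ} (h : NZ G θ a b) (h1 : θ ≤ θ')
    (h2 : a ≤ a') (h3 : b' ≤ b) : NZ G θ' a' b' := by
  intro z hz1 hz2 hz3 hz4
  exact h z (by linarith) hz2 (by linarith) (by linarith)

theorem t_FW (h : S_LB) : S_FW := by
  intro K A k hK hA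
  obtain ⟨C1, hC1, hl⟩ := h K A k hK hA
  refine ⟨4 * C1 + 2 * A, by linarith, ?_⟩
  intro y0 f l g hS c cs hc hcs T θ δ hT hθ hθ1 hok hnz z hz1 hz2 hz3
  have hT1 : 1 ≤ l T := by linarith
  have hT0 : 0 < l T := by linarith
  have hz0 : ((z.re : ℝ) : ℂ) + I * T = z := by
    apply Complex.ext <;> simp [hz1]
  obtain ⟨hz4, _, hz5⟩ := hl y0 f l g hS cs hcs T θ δ (by linarith) hθ hθ1 hok.1 hok.2.1 hnz z.re hz2
    (by linarith)
  rw [hz0] at hz4 hz5
  have e1 := ee_le hC1 (by linarith : C1 ≤ 4 * C1 + 2 * A) hT1 hok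
  have e2 : C1 / (4 * C1 + 2 * A) * δ * l T ≤ l T / 8 := by
    have h1 : C1 / (4 * C1 + 2 * A) ≤ 1 / 4 := by
      rw [div_le_iff₀ (by linarith)]
      linarith
    have h2 : C1 / (4 * C1 + 2 * A) * δ ≤ 1 / 4 * (1 / 2) :=
      mul_le_mul h1 hok.2.1 hok.1.le (by norm_num)
    have h3 := mul_le_mul_of_nonneg_right h2 hT0.le
    linarith
  intro h0
  change deriv (It f cs) z - (c : ℂ) * It f cs z = 0 at h0
  have h1 : logDeriv (It f cs) z = (c : ℂ) := by
    rw [logDeriv_apply, div_eq_iff hz4]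
    exact sub_eq_zero.1 h0
  rw [h1] at hz5
  have h2 : ‖(c : ℂ) - (l T : ℂ)‖ = |c - l T| := by
    rw [← ofReal_sub, norm_real, Real.norm_eq_abs]
  rw [h2] at hz5
  have h3 := (abs_le.1 hz5).1
  have h4 := (abs_le.1 hc).2
  linarith

lemma log_small2 (K a b : ℝ) (hK : 0 ≤ K) (ha : 1 ≤ a) (hb : 0 ≤ b) :
    ∃ L0 : ℝ, 2 ≤ L0 ∧ ∀ L : ℝ, L0 ≤ L → K * Real.log (a + b * L) ≤ L / 2 := by
  have h := Real.isLittleO_log_id_atTop.def (c := 1 / (4 * (K + 1))) (by positivity)
  obtain ⟨T1, hT1⟩ := eventually_atTop.1 h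
  refine ⟨max (max 2 (4 * (K * Real.log (a + b)))) T1, (le_max_left _ _).trans (le_max_left _ _),
    fun L hL => ?_⟩
  have h2 : 2 ≤ L := ((le_max_left _ _).trans (le_max_left _ _)).trans hL
  have h3 : 4 * (K * Real.log (a + b)) ≤ L := ((le_max_right _ _).trans (le_max_left _ _)).trans hL
  have h4 := hT1 L ((le_max_right _ _).trans hL)
  have hlog : 0 ≤ Real.log L := Real.log_nonneg (by linarith)
  rw [Real.norm_of_nonneg hlog, id, Real.norm_of_nonneg (by linarith)] at h4
  have h5 : Real.log (a + b * L) ≤ Real.log (a + b) + Real.log L := by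
    rw [← Real.log_mul (by linarith) (by linarith)]
    apply Real.log_le_log (by nlinarith)
    nlinarith
  have h6 : K * Real.log L ≤ L / 4 := by
    calc K * Real.log L ≤ (K + 1) * Real.log L := by nlinarith
      _ ≤ (K + 1) * (1 / (4 * (K + 1)) * L) := mul_le_mul_of_nonneg_left h4 (by linarith)
      _ = L / 4 := by field_simp
  have h7 := mul_le_mul_of_nonneg_left h5 hK
  linarith

theorem t_UP (h : S_BK) : S_UP := by
  intro K A X k hK hA hX
  induction k with
  | zero =>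
    refine ⟨max 1 X, le_max_left _ _, ?_⟩
    intro y0 f l g hS cs hcs T θ δ hT hC hθ hθ1 hok hnz
    rw [li_zero hcs] at hnz
    have h1 : 1 ≤ max 1 X := le_max_left _ _
    have h2 : X ≤ max 1 X := le_max_right _ _
    refine nz_mono hnz ?_ ?_ ?_
    · have := mul_nonneg (by linarith : (0 : ℝ) ≤ max 1 X) hok.1.le
      linarith
    · simp
    · have : max 1 X ≤ max 1 X * l T := le_mul_of_one_le_right (by linarith) (by linarith)
      linarith
  | succ k ih =>
    obtain ⟨C2, hC2, h4⟩ := ih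
    obtain ⟨C1, hC1, h5⟩ := h K A k hK hA
    obtain ⟨L0, hL0, h6⟩ := log_small2 K (2 + 4 * k + X) C2 (by linarith) (by
      have : (0 : ℝ) ≤ k := by positivity
      linarith) (by linarith)
    refine ⟨4 * (C1 + C2) + L0, by linarith, ?_⟩
    intro y0 f l g hS cs hcs T θ δ hT hC hθ hθ1 hok hnz
    obtain ⟨c, ds, rfl, hc, hds⟩ := li_succ hcs
    push_cast at hT hnz
    have hk0 : (0 : ℝ) ≤ k := by positivity
    have hL1 : L0 ≤ l T := by linarith
    have hLs := h6 (l T) hL1
    have hL2 : 2 ≤ l T := by linarith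
    have hδ := hok.1
    have hCC : C2 * l T ≤ (4 * (C1 + C2) + L0) * l T := mul_le_mul_of_nonneg_right (by linarith) (by linarith)
    have hnear : ∀ T' : ℝ, T - 4 * k - X ≤ T' → T' ≤ T + C2 * l T → |l T' - l T| ≤ l T / 2 := by
      intro T' h1 h2
      have h3 := hS.shift T (T' - T)
      have h7 : T + (T' - T) = T' := by ring
      rw [h7] at h3
      refine h3.trans (le_trans ?_ hLs)
      apply mul_le_mul_of_nonneg_left _ (by linarith)
      apply Real.log_le_log (by positivity)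
      have h8 : |T' - T| ≤ 4 * k + X + C2 * l T := by
        rw [abs_le]
        have : 0 ≤ C2 * l T := by positivity
        constructor <;> linarith
      linarith
    have hnz2 : NZ (It f ds) (θ + 3 * δ) (T - 4 * k - X) (T + C2 * l T) := by
      intro z hz1 hz2 hz3 hz4
      have h7 := abs_le.1 (hnear z.im hz3 hz4)
      have hok' : Ok C1 (l z.im) δ := ok_near hC1 (by linarith) hL2 (by linarith) hok
      have hCδ : 0 ≤ (4 * (C1 + C2) + L0) * δ := mul_nonneg (by linarith) hδ.le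
      refine h5 y0 f l g hS c ds hc hds z.im θ δ (by linarith) (by linarith) hθ (by linarith) hok' ?_ z rfl
        hz1.le hz2
      refine nz_mono hnz le_rfl (by linarith) ?_
      have h8 : C1 * l z.im ≤ C1 * (2 * l T) := mul_le_mul_of_nonneg_left (by linarith) (by linarith)
      have h9 : 0 ≤ L0 * l T := by positivity
      have h10 : 0 ≤ C1 * l T := by positivity
      have h11 : 0 ≤ C2 * l T := by positivity
      linarith
    have hok2 : Ok C2 (l T) δ := ok_near hC2 (by linarith) hL2 (by linarith) hok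
    have hCδ2 : (3 + C2) * δ ≤ (4 * (C1 + C2) + L0) * δ := mul_le_mul_of_nonneg_right (by linarith) hδ.le
    have h7 := h4 y0 f l g hS ds hds T (θ + 3 * δ) δ (by linarith) (by linarith) (by linarith) (by linarith)
      hok2 hnz2
    exact nz_mono h7 (by linarith) le_rfl le_rfl

end Pool.Agent.Q75.DS
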